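import Pool.Agent.N102.FL.LStm

/-!
# FL2/CUT: the main construction with independent gradients (helper595), after `main_cut` of
`Pool.Agent.W418.LU2.Main` (helper418)
-/

set_option autoImplicit false
set_option linter.unusedVariables false
set_option linter.unusedSectionVars false

universe u

open IsLocalRing

namespace Pool.Agent.N595.FL

open Pool.Agent.W418.LU2
open Pool.Agent.N102.FL (OkJ S_CUT)

/-- Dual vectors of independent vectors. -/
lemma exists_duals {κ : Type u} [Field κ] {ι Θ : Type} [Fintype ι] [Fintype Θ] [DecidableEq ι]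
    (v : ι → Θ → κ) (hv : ∀ r : ι → κ, (∀ θ, ∑ l, r l * v l θ = 0) → r = 0) :
    ∃ a : ι → Θ → κ, ∀ i j, ∑ b, a i b * v j b = if i = j then 1 else 0 := by
  classical
  let Φ : (ι → κ) →ₗ[κ] (Θ → κ) := Fintype.linearCombination κ v
  have hΦ0 : ∀ x θ, Φ x θ = ∑ l, x l * v l θ := by
    intro x θ
    change (∑ l, x l • v l) θ = _
    rw [Finset.sum_apply]
    rfl
  have hΦ : LinearMap.ker Φ = ⊥ := by
    rw [LinearMap.ker_eq_bot']
    intro x hx
    apply hv
    intro θ
    rw [← hΦ0, hx]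
    rfl
  obtain ⟨Ψ, hΨ⟩ := Φ.exists_leftInverse_of_injective hΦ
  refine ⟨fun i b => Ψ (Pi.single b 1) i, fun i j => ?_⟩
  have h1 : Φ (Pi.single j 1) = v j := by
    funext θ
    rw [hΦ0, Finset.sum_eq_single j]
    · rw [Pi.single_eq_same, one_mul]
    · intro i _ hi
      rw [Pi.single_eq_of_ne hi, zero_mul]
    · intro h
      exact absurd (Finset.mem_univ _) h
  have h2 : Ψ (v j) = Pi.single j 1 := by
    rw [← h1]
    exact LinearMap.congr_fun hΨ _
  have h3 : v j = ∑ b, v j b • (Pi.single b 1 : Θ → κ) := by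
    funext b'
    rw [Finset.sum_apply, Finset.sum_eq_single b']
    · simp
    · intro b _ hb
      rw [Pi.smul_apply, Pi.single_eq_of_ne (Ne.symm hb), smul_zero]
    · intro h
      exact absurd (Finset.mem_univ _) h
  rw [h3, map_sum] at h2
  have h4 := congrFun h2 i
  rw [Finset.sum_apply] at h4
  simp only [map_smul, Pi.smul_apply, smul_eq_mul] at h4
  rw [Pi.single_apply] at h4
  rw [← h4]
  exact Finset.sum_congr rfl fun b _ => mul_comm _ _

/-- The main construction. -/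
theorem t_cut : S_CUT.{u} := by
  intro E K _ _ _ Θ _ y hy V C ι₀ _ x₀ h0 hC hCE 𝒮 h𝒮 hc hfr htr G hG hGx
  classical
  -- the stage
  let τ : ∀ k, 𝒮.ι k → FF E Θ := fun k i => emb E Θ (𝒮.c k i) * mo (Zc E) (𝒮.m k i)
  have hτ : ∀ k i, Pr (ph (E := E) y) (τ k i) (algebraMap E K (𝒮.c k i) * mo y (𝒮.m k i)) :=
    fun k i => (Pr_emb y _).mul (Pr.mo (fun θ => Pr_Z y θ) hy _)
  let G' : Set (FF E Θ) := ((fun g : E × (Θ → ℤ) => emb E Θ g.1 * mo (Zc E) g.2) '' G) ∪
    Set.range (fun q : Σ k, 𝒮.ι k => τ q.1 q.2)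
  obtain ⟨ι, _, T, x, hst, href, hZ, hGP⟩ := exists_stage hy V h0 hC (G := G')
    ((hG.image _).union (Set.finite_range _)) (by
      rintro _ (⟨g, hg, rfl⟩ | ⟨q, rfl⟩)
      · exact ⟨g.1, hGx g hg, g.2, rfl⟩
      · exact ⟨𝒮.c q.1 q.2, hc q.1 q.2, 𝒮.m q.1 q.2, rfl⟩)
  set P := lo (AT E y V) (Subring.closure (C.map (emb E Θ) ∪ T)) with hPdef
  have hreg := hst.reg
  have hregP : IsRegularLocalRing P := hreg.reg
  have hPA : P ≤ AT E y V := hreg.PA
  have hτP : ∀ k i, τ k i ∈ P := fun k i =>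
    hGP _ (Or.inr ⟨⟨k, i⟩, rfl⟩) ((hτ k i).mem_AA.2 (h𝒮.hV k i))
  -- the equations
  let e : 𝒮.κ → P := fun k => ∑ i, ⟨τ k i, hτP k i⟩
  have he_coe : ∀ k, (e k : FF E Θ) = ∑ i, τ k i := by
    intro k
    change ((∑ i, (⟨τ k i, hτP k i⟩ : P) : P) : FF E Θ) = _
    rw [AddSubmonoidClass.coe_finsetSum]
  have he0 : ∀ k, Pr (ph (E := E) y) (e k : FF E Θ) 0 := by
    intro k
    rw [he_coe, ← h𝒮.sum k]
    exact Pr.sum _ fun i _ => hτ k i
  have hem : ∀ k, e k ∈ maximalIdeal P := by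
    intro k
    rw [mem_max_val hreg _ (he0 k), map_zero]
    exact zero_lt_one
  -- the image in `K`
  let prP : P →+* K := (prA (F := FF E Θ) (φ := ph (E := E) y) (V := V)).comp
    (Subring.inclusion hPA)
  have hprP : ∀ z : P, Pr (ph (E := E) y) (z : FF E Θ) (prP z) := fun z =>
    prA_spec (Subring.inclusion hPA z)
  have hprV : ∀ z : P, prP z ∈ V := fun z => prA_mem _
  have hprm : ∀ z : P, z ∈ maximalIdeal P ↔ V.valuation (prP z) < 1 := fun z =>
    mem_max_val hreg z (hprP z)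
  -- the derivations
  obtain ⟨a, haV, ha⟩ := h𝒮.der
  choose D hD using fun θ : Θ => exists_D (E := E) (Pi.single θ (1 : ℤ) : Θ → ℤ)
  have hw : ∀ (θ : Θ) (m : Θ → ℤ), ∑ θ', m θ' * (Pi.single θ (1 : ℤ) : Θ → ℤ) θ' = m θ := by
    intro θ m
    rw [Finset.sum_eq_single θ]
    · rw [Pi.single_eq_same, mul_one]
    · intro θ' _ h
      rw [Pi.single_eq_of_ne h, mul_zero]
    · intro h
      exact absurd (Finset.mem_univ _) h
  have hDP : ∀ k, ∀ z ∈ P, D k z ∈ P := fun k => der_stage (hD k) hst.TN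
  let DP : Θ → P →+ P := fun k =>
    { toFun := fun z => ⟨D k z, hDP k z z.2⟩
      map_zero' := Subtype.ext (map_zero (D k))
      map_add' := fun a b => Subtype.ext (map_add (D k) (a : FF E Θ) (b : FF E Θ)) }
  have hDPc : ∀ k z, (DP k z : FF E Θ) = D k z := fun k z => rfl
  have heig : ∀ θ l i, D θ (τ l i) = (𝒮.m l i θ : FF E Θ) * τ l i := by
    intro θ l i
    have h1 : Eig (D θ) (τ l i) _ := eig_NT (hD θ) (𝒮.c l i) (𝒮.m l i)
    rw [hw] at h1
    exact h1
  let Bm : 𝒮.κ → Θ → P := fun l θ => ∑ i, ((𝒮.m l i θ : ℤ) : P) * ⟨τ l i, hτP l i⟩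
  have hDe : ∀ θ l, DP θ (e l) = Bm l θ := by
    intro θ l
    apply Subtype.ext
    rw [hDPc, he_coe, map_sum]
    change _ = ((∑ i, ((𝒮.m l i θ : ℤ) : P) * ⟨τ l i, hτP l i⟩ : P) : FF E Θ)
    rw [AddSubmonoidClass.coe_finsetSum]
    refine Finset.sum_congr rfl fun i _ => ?_
    rw [heig]
    rfl
  have hprτ : ∀ l i, prP ⟨τ l i, hτP l i⟩ = algebraMap E K (𝒮.c l i) * mo y (𝒮.m l i) :=
    fun l i => (hprP ⟨τ l i, hτP l i⟩).unique (hτ l i)
  have hprB : ∀ l θ, prP (Bm l θ) = ∑ i, (𝒮.m l i θ : K) *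
      (algebraMap E K (𝒮.c l i) * mo y (𝒮.m l i)) := by
    intro l θ
    simp only [Bm]
    rw [map_sum]
    refine Finset.sum_congr rfl fun i _ => ?_
    rw [map_mul, map_intCast, hprτ]
  -- valuations of sums and products
  have vsum : ∀ {σ : Type} (s : Finset σ) (f : σ → K), (∀ i ∈ s, V.valuation (f i) < 1) →
      V.valuation (∑ i ∈ s, f i) < 1 := fun s f h => V.valuation.map_sum_lt one_ne_zero h
  have vmul : ∀ {x z : K}, x ∈ V → V.valuation z < 1 → V.valuation (x * z) < 1 := by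
    intro x z hx hz
    rw [map_mul]
    have h1 : V.valuation x ≤ 1 := (V.valuation_le_one_iff _).2 hx
    exact (mul_le_of_le_one_left' h1).trans_lt hz
  -- the gradients are independent over the residue field of `P`
  have hlin : ∀ r : 𝒮.κ → ResidueField P, (∀ θ, ∑ l, r l * residue P (Bm l θ) = 0) → r = 0 := by
    intro r hr
    choose ρ hρ using fun l => residue_surjective (R := P) (r l)
    have h1 : ∀ θ, V.valuation (∑ l, prP (ρ l) * prP (Bm l θ)) < 1 := by
      intro θ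
      have h2 : ∑ l, ρ l * Bm l θ ∈ maximalIdeal P := by
        rw [← residue_eq_zero_iff, map_sum, ← hr θ]
        refine Finset.sum_congr rfl fun l _ => ?_
        rw [map_mul, hρ]
      rw [hprm, map_sum] at h2
      simpa only [map_mul] using h2
    funext k
    have h3 : V.valuation (∑ θ, a k θ * ∑ l, prP (ρ l) * prP (Bm l θ)) < 1 :=
      vsum _ _ fun θ _ => vmul (haV k θ) (h1 θ)
    have h4 : V.valuation (∑ l, prP (ρ l) * ((∑ θ, a k θ * prP (Bm l θ)) -
        if k = l then 1 else 0)) < 1 := by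
      refine vsum _ _ fun l _ => vmul (hprV _) ?_
      have h5 := ha k l
      simp only [hprB]
      exact h5
    have h6 : prP (ρ k) = (∑ θ, a k θ * ∑ l, prP (ρ l) * prP (Bm l θ)) -
        ∑ l, prP (ρ l) * ((∑ θ, a k θ * prP (Bm l θ)) - if k = l then 1 else 0) := by
      have h7 : ∑ l, prP (ρ l) * ((∑ θ, a k θ * prP (Bm l θ)) - if k = l then 1 else 0) =
          ∑ l, prP (ρ l) * (∑ θ, a k θ * prP (Bm l θ)) - prP (ρ k) := by
        simp only [mul_sub, Finset.sum_sub_distrib]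
        congr 1
        rw [Finset.sum_eq_single k]
        · rw [if_pos rfl, mul_one]
        · intro l _ hl
          rw [if_neg (Ne.symm hl), mul_zero]
        · intro h
          exact absurd (Finset.mem_univ _) h
      have h8 : ∑ θ, a k θ * ∑ l, prP (ρ l) * prP (Bm l θ) =
          ∑ l, prP (ρ l) * (∑ θ, a k θ * prP (Bm l θ)) := by
        simp only [Finset.mul_sum]
        rw [Finset.sum_comm]
        refine Finset.sum_congr rfl fun l _ => Finset.sum_congr rfl fun θ _ => ?_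
        ring
      rw [h7, h8]
      ring
    have h9 : V.valuation (prP (ρ k)) < 1 := by
      rw [h6]
      refine lt_of_le_of_lt (V.valuation.map_sub _ _) (max_lt h3 h4)
    rw [← hprm] at h9
    rw [← hρ, Pi.zero_apply]
    exact (residue_eq_zero_iff _).2 h9
  obtain ⟨α', hα'⟩ := exists_duals (fun l θ => residue P (Bm l θ)) hlin
  choose α hα using fun k θ => residue_surjective (R := P) (α' k θ)
  have hdual : ∀ k l, ∑ θ, α k θ * Bm l θ - (if k = l then 1 else 0) ∈ maximalIdeal P := by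
    intro k l
    rw [← residue_eq_zero_iff, map_sub, map_sum]
    simp only [map_mul, hα]
    rw [hα' k l]
    split_ifs <;> simp
  let DQ : 𝒮.κ → P →+ P := fun k =>
    { toFun := fun z => ∑ θ, α k θ * DP θ z
      map_zero' := by simp only [map_zero, mul_zero, Finset.sum_const_zero]
      map_add' := fun a b => by
        simp only [map_add, mul_add, Finset.sum_add_distrib] }
  have hDQ : ∀ k z, DQ k z = ∑ θ, α k θ * DP θ z := fun k z => rfl
  have hind : IndN (Sum.elim (fun i => (⟨x i, hreg.mem i⟩ : P)) e) := by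
    refine IndN.eqs hreg.ind hem (fun _ => 0) DQ ?_ ?_ ?_ ?_
    · intro k a b
      have h1 : ∀ θ, DP θ (a * b) = a * DP θ b + b * DP θ a := by
        intro θ
        apply Subtype.ext
        change D θ (a * b : FF E Θ) = a * D θ b + b * D θ a
        rw [Derivation.leibniz]
        rfl
      rw [hDQ, hDQ, hDQ, Finset.mul_sum, Finset.mul_sum, ← Finset.sum_add_distrib]
      refine Finset.sum_congr rfl fun θ _ => ?_
      rw [h1]
      ring
    · intro k i hi
      obtain ⟨e', m', -, -, h1⟩ := mem_NT (hst.xN i)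
      rw [hDQ]
      refine Ideal.sum_mem _ fun θ _ => (maximalIdeal P).mul_mem_left _ ?_
      have h2 : DP θ (⟨x i, hreg.mem i⟩ : P) = ((m' θ : ℤ) : P) * ⟨x i, hreg.mem i⟩ := by
        apply Subtype.ext
        change D θ (x i) = ((m' θ : ℤ) : FF E Θ) * x i
        have h3 := eig_NT (hD θ) e' m'
        rw [hw, ← h1] at h3
        exact h3
      rw [h2]
      exact (maximalIdeal P).mul_mem_left _ hi
    · intro k l hlk _
      rw [hDQ]
      simp only [hDe]
      have h1 := hdual k l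
      rw [if_neg (Ne.symm hlk), sub_zero] at h1
      exact h1
    · intro k h1
      rw [hDQ] at h1
      simp only [hDe] at h1
      have h2 := hdual k k
      rw [if_pos rfl] at h2
      have h3 := (maximalIdeal P).sub_mem h1 h2
      rw [sub_sub_cancel] at h3
      exact (Ideal.ne_top_iff_one _).1 (maximalIdeal.isMaximal P).ne_top h3
  have hie : Ind e := hind.ind Sum.inr Sum.inr_injective hem
  -- the values of the parameters
  have hxv : ∀ i, ∃ w : K, w ≠ 0 ∧ Pr (ph (E := E) y) (x i) w ∧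
      w ∈ V := by
    intro i
    obtain ⟨e', m', he', -, h1⟩ := mem_NT (hst.xN i)
    have h2 : Pr (ph (E := E) y) (x i) (algebraMap E K e' * mo y m') := by
      rw [h1]
      exact (Pr_emb y _).mul (Pr.mo (fun θ => Pr_Z y θ) hy _)
    exact ⟨_, mul_ne_zero ((map_ne_zero _).2 he') (mo_ne_zero hy _), h2,
      h2.mem_AA.1 (hPA (hreg.mem i))⟩
  choose xK hxK0 hxK hxKV using hxv
  -- the denominators
  have hU : ∀ δ : ι → ℤ, 0 ≤ δ → mo x δ ∈ P ∧ ∃ w, w ≠ 0 ∧ Pr (ph (E := E) y) (mo x δ) w :=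
    fun δ hδ => ⟨mo_mem hreg.mem hδ, mo xK δ, mo_ne_zero hxK0 _, Pr.mo hxK hxK0 δ⟩
  have hden : ∀ β : MvPolynomial Θ E, ∃ d ∈ P, (∃ w, w ≠ 0 ∧ Pr (ph (E := E) y) d w) ∧
      d * algebraMap (MvPolynomial Θ E) (FF E Θ) β ∈ P := by
    intro β
    induction β using MvPolynomial.induction_on with
    | C a =>
      obtain ⟨b, hb, hb0, hab⟩ := hCE a
      have hmem : ∀ c ∈ C, emb E Θ c ∈ P := fun c hc =>
        le_lo _ _ (Subring.subset_closure (Or.inl ⟨c, hc, rfl⟩))
      refine ⟨emb E Θ b, hmem b hb, ⟨_, (map_ne_zero _).2 hb0, Pr_emb y b⟩, ?_⟩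
      have h1 : emb E Θ b * algebraMap (MvPolynomial Θ E) (FF E Θ) (MvPolynomial.C a) =
          emb E Θ (a * b) := by
        rw [map_mul, mul_comm]
        rfl
      rw [h1]
      exact hmem _ hab
    | add a b ha hb =>
      obtain ⟨d, hd, ⟨w, hw, hdw⟩, h1⟩ := ha
      obtain ⟨d', hd', ⟨w', hw', hdw'⟩, h2⟩ := hb
      refine ⟨d * d', P.mul_mem hd hd', ⟨_, mul_ne_zero hw hw', hdw.mul hdw'⟩, ?_⟩
      have h3 : d * d' * algebraMap (MvPolynomial Θ E) (FF E Θ) (a + b) =
          d' * (d * algebraMap (MvPolynomial Θ E) (FF E Θ) a) +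
          d * (d' * algebraMap (MvPolynomial Θ E) (FF E Θ) b) := by
        rw [map_add]; ring
      rw [h3]
      exact P.add_mem (P.mul_mem hd' h1) (P.mul_mem hd h2)
    | mul_X a θ ha =>
      obtain ⟨d, hd, ⟨w, hw, hdw⟩, h1⟩ := ha
      obtain ⟨u, u0, u1, u2, δ, hδ⟩ := hZ θ
      obtain ⟨h3, w', hw', h4⟩ := hU (fun i => max (-δ i) 0) (fun i => le_max_right _ _)
      refine ⟨d * mo x (fun i => max (-δ i) 0), P.mul_mem hd h3,
        ⟨_, mul_ne_zero hw hw', hdw.mul h4⟩, ?_⟩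
      have h5 : mo x (fun i => max (-δ i) 0) * algebraMap (MvPolynomial Θ E) (FF E Θ)
          (MvPolynomial.X θ) = u * mo x (fun i => max (δ i) 0) := by
        change _ * Zc E θ = _
        rw [hδ, mul_left_comm, ← mo_add hreg.ne]
        congr 2
        funext i
        simp only [Pi.add_apply]
        omega
      have h6 : d * mo x (fun i => max (-δ i) 0) * algebraMap (MvPolynomial Θ E) (FF E Θ)
          (a * MvPolynomial.X θ) = (d * algebraMap (MvPolynomial Θ E) (FF E Θ) a) *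
          (u * mo x (fun i => max (δ i) 0)) := by
        rw [← h5, map_mul]
        ring
      rw [h6]
      exact P.mul_mem h1 (P.mul_mem u1 (mo_mem hreg.mem fun i => le_max_right _ _))
  let TK : Set K := {w | ∃ t ∈ T, Pr (ph (E := E) y) t w}
  have hTKfin : TK.Finite := by
    have h1 : ∀ t ∈ T, ∃ w, Pr (ph (E := E) y) t w := fun t ht => by
      obtain ⟨w, -, h⟩ := hst.TA t ht
      exact ⟨w, h⟩
    choose! f hf using h1
    refine (hst.fin.image f).subset ?_
    rintro w ⟨t, ht, h⟩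
    exact ⟨t, ht, (hf t ht).unique h⟩
  have hTKV : ∀ t ∈ TK, t ∈ V := by
    rintro w ⟨t, ht, h⟩
    exact h.mem_AA.1 (hst.TA t ht)
  set B := Subring.closure (C.map (algebraMap E K) ∪ TK) with hB
  have hBV : B ≤ V.toSubring := by
    rw [hB, Subring.closure_le]
    rintro w (⟨c, hc, rfl⟩ | hw)
    · exact hC hc
    · exact hTKV w hw
  -- lifting
  have hlift : ∀ b ∈ B, ∃ s ∈ Subring.closure (C.map (emb E Θ) ∪ T), Pr (ph (E := E) y) s b := by
    intro b hb
    rw [hB] at hb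
    induction hb using Subring.closure_induction with
    | mem b hb =>
      rcases hb with ⟨c, hc, rfl⟩ | ⟨t, ht, h⟩
      · exact ⟨_, Subring.subset_closure (Or.inl ⟨c, hc, rfl⟩), Pr_emb y c⟩
      · exact ⟨t, Subring.subset_closure (Or.inr ht), h⟩
    | zero => exact ⟨0, Subring.zero_mem _, Pr.zero⟩
    | one => exact ⟨1, Subring.one_mem _, Pr.one⟩
    | add a b _ _ ha hb =>
      obtain ⟨s, hs, h⟩ := ha
      obtain ⟨s', hs', h'⟩ := hb
      exact ⟨_, Subring.add_mem _ hs hs', h.add h'⟩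
    | neg a _ ha =>
      obtain ⟨s, hs, h⟩ := ha
      exact ⟨_, Subring.neg_mem _ hs, h.neg⟩
    | mul a b _ _ ha hb =>
      obtain ⟨s, hs, h⟩ := ha
      obtain ⟨s', hs', h'⟩ := hb
      exact ⟨_, Subring.mul_mem _ hs hs', h.mul h'⟩
  have hdown : ∀ s ∈ Subring.closure (C.map (emb E Θ) ∪ T), ∃ b ∈ B, Pr (ph (E := E) y) s b := by
    intro s hs
    induction hs using Subring.closure_induction with
    | mem b hb =>
      rcases hb with ⟨c, hc, rfl⟩ | ht
      · exact ⟨_, Subring.subset_closure (Or.inl ⟨c, hc, rfl⟩), Pr_emb y c⟩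
      · obtain ⟨w, -, h⟩ := hst.TA b ht
        exact ⟨w, Subring.subset_closure (Or.inr ⟨b, ht, h⟩), h⟩
    | zero => exact ⟨0, Subring.zero_mem _, Pr.zero⟩
    | one => exact ⟨1, Subring.one_mem _, Pr.one⟩
    | add a b _ _ ha hb =>
      obtain ⟨s, hs, h⟩ := ha
      obtain ⟨s', hs', h'⟩ := hb
      exact ⟨_, Subring.add_mem _ hs hs', h.add h'⟩
    | neg a _ ha =>
      obtain ⟨s, hs, h⟩ := ha
      exact ⟨_, Subring.neg_mem _ hs, h.neg⟩
    | mul a b _ _ ha hb =>
      obtain ⟨s, hs, h⟩ := ha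
      obtain ⟨s', hs', h'⟩ := hb
      exact ⟨_, Subring.mul_mem _ hs hs', h.mul h'⟩
  have hmemB : ∀ z : P, prP z ∈ lo V.toSubring B := by
    rintro ⟨z, hz⟩
    have hz' := hz
    obtain ⟨a, ha, b, hb, hb0, hbA, h1⟩ := hz'
    obtain ⟨a', ha', h2⟩ := hdown a ha
    obtain ⟨b', hb', h3⟩ := hdown b hb
    obtain ⟨w, hw, h4⟩ := hbA
    have h5 : b' * w = 1 := by
      have h6 := h3.mul h4
      rw [mul_inv_cancel₀ hb0] at h6
      exact h6.unique Pr.one
    have hb0' : b' ≠ 0 := left_ne_zero_of_mul_eq_one h5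
    have h7 : w = b'⁻¹ := eq_inv_of_mul_eq_one_right h5
    refine ⟨a', ha', b', hb', hb0', ?_, ?_⟩
    · rw [← h7]; exact hw
    · have h8 := hprP ⟨z, hz⟩
      refine h8.unique ?_
      change Pr _ z _
      rw [h1, ← h7]
      exact h2.mul h4
  let θ : P →+* lo V.toSubring B := prP.codRestrict (lo V.toSubring B) hmemB
  have hθc : ∀ z, (θ z : K) = prP z := fun z => rfl
  have hsurj : Function.Surjective θ := by
    rintro ⟨w, a, ha, b, hb, hb0, hbV, hw⟩
    obtain ⟨s, hs, h1⟩ := hlift a ha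
    obtain ⟨t, ht, h2⟩ := hlift b hb
    have h3 := h1.mul (h2.inv hb0)
    have h4 : s * t⁻¹ ∈ P := by
      refine ⟨s, hs, t, ht, h2.ne_zero hb0, ?_, rfl⟩
      exact ⟨_, hbV, h2.inv hb0⟩
    refine ⟨⟨_, h4⟩, Subtype.ext ?_⟩
    rw [hθc]
    change prP _ = w
    rw [hw]
    exact (hprP ⟨_, h4⟩).unique h3
  have hlocB : IsLocalRing (lo V.toSubring B) := isLocalRing_lo (loc_V V) hBV
  have hker : RingHom.ker θ = Ideal.span (Set.range e) := by
    apply le_antisymm
    · intro z hz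
      refine ker_le hregP hPA hie he0 hden hfr htr z ?_
      have h1 : prP z = 0 := congrArg Subtype.val (RingHom.mem_ker.1 hz)
      rw [← h1]
      exact hprP z
    · rw [Ideal.span_le]
      rintro _ ⟨k, rfl⟩
      refine RingHom.mem_ker.2 (Subtype.ext ?_)
      rw [hθc]
      exact (hprP (e k)).unique (he0 k)
  obtain ⟨h1, h2⟩ := quot_regular' hind hem θ hsurj hker
  have hθx : ∀ i, (θ ⟨x i, hreg.mem i⟩ : K) = xK i := fun i =>
    (hprP ⟨x i, hreg.mem i⟩).unique (hxK i)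
  have hxKm : ∀ i, xK i ∈ lo V.toSubring B := fun i => by
    rw [← hθx]
    exact (θ _).2
  have hRegK : RegP V.toSubring (lo V.toSubring B) xK := by
    refine ⟨lo_le hBV, hxK0, hxKm, h1, fun z hz h0 h3 => inv_mem_lo hBV hz h0 h3, ?_⟩
    convert h2 using 1
    funext i
    exact Subtype.ext (hθx i).symm
  have hPM : ∀ (g : FF E Θ) (w : K), PMon P x g → Pr (ph (E := E) y) g w →
      PMon (lo V.toSubring B) xK w := by
    rintro g w ⟨u, u0, u1, u2, δ, rfl⟩ hgw
    have h3 := hprP ⟨u, u1⟩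
    have h4 := hprP ⟨u⁻¹, u2⟩
    have h5 : prP ⟨u, u1⟩ * prP ⟨u⁻¹, u2⟩ = 1 := by
      have h6 := h3.mul h4
      change Pr _ (u * u⁻¹) _ at h6
      rw [mul_inv_cancel₀ u0] at h6
      exact h6.unique Pr.one
    refine ⟨prP ⟨u, u1⟩, left_ne_zero_of_mul_eq_one h5, hmemB _, ?_, δ, ?_⟩
    · rw [← eq_inv_of_mul_eq_one_right h5]
      exact hmemB _
    · exact hgw.unique (h3.mul (Pr.mo hxK hxK0 δ))
  refine ⟨TK, ι, inferInstance, xK, hTKfin, hTKV, ?_, hRegK, ?_, ?_, ?_⟩
  · rintro w ⟨t, ht, h⟩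
    obtain ⟨e', m', -, ⟨γ, rfl⟩, h3⟩ := mem_NT (hst.TN t ht)
    refine ⟨γ, m', h.unique ?_⟩
    rw [h3]
    exact (Pr_emb y _).mul (Pr.mo (fun θ => Pr_Z y θ) hy _)
  · rintro _ ⟨u, u0, u1, u2, δ, rfl⟩
    refine hPM (emb E Θ (u * mo x₀ δ)) _ ?_ (Pr_emb y _)
    obtain ⟨δ', hδ'⟩ := href.all (fun i => (map_ne_zero _).2 (h0.ne i)) hreg.ne δ
    have h3 : ∀ c ∈ lo (V.comap (algebraMap E K)).toSubring C, emb E Θ c ∈ P := by
      intro c hc
      have h4 : emb E Θ c ∈ lo (AT E y V) (C.map (emb E Θ)) := by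
        rw [lo_map (emb E Θ) (emb_mem (y := y) V)]
        exact ⟨c, hc, rfl⟩
      exact lo_mono (fun z hz => Subring.subset_closure (Or.inl hz)) h4
    refine ⟨emb E Θ u, (map_ne_zero _).2 u0, h3 u u1, ?_, δ', ?_⟩
    · rw [← map_inv₀]
      exact h3 _ u2
    · rw [map_mul, ← hδ']
      congr 1
      unfold mo
      rw [map_prod]
      exact Finset.prod_congr rfl fun i _ => map_zpow₀ _ _ _
  · intro θ'
    exact hPM (Zc E θ') _ (hZ θ') (Pr_Z y θ')
  · intro g hg hgV
    have h3 : Pr (ph (E := E) y) (emb E Θ g.1 * mo (Zc E) g.2)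
        (algebraMap E K g.1 * mo y g.2) :=
      (Pr_emb y _).mul (Pr.mo (fun θ => Pr_Z y θ) hy _)
    have h4 := hGP _ (Or.inl ⟨g, hg, rfl⟩) (h3.mem_AA.2 hgV)
    have h5 := hmemB ⟨_, h4⟩
    rwa [(hprP ⟨_, h4⟩).unique h3] at h5

end Pool.Agent.N595.FL
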